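import Pool.Agent.H53.RC.FE2

/-!
# (FE1) the symmetry of the orders
-/

set_option autoImplicit false

open NumberField NumberField.InfinitePlace Complex Filter Topology

namespace Pool.Agent.H53.RC

open Pool.Agent.H28.RC Pool.Agent.H25.HK Pool.Agent.H25

/-- `f` is analytic of order `n` at `s` -/
def Od (f : ℂ → ℂ) (s : ℂ) (n : ℕ) : Prop := AnalyticAt ℂ f s ∧ analyticOrderAt f s = n

lemma Od.uniq {f : ℂ → ℂ} {s : ℂ} {n m : ℕ} (h1 : Od f s n) (h2 : Od f s m) : n = m := by
  have := h1.2.symm.trans h2.2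
  exact_mod_cast this

lemma Od.mul {f g : ℂ → ℂ} {s : ℂ} {n m : ℕ} (h1 : Od f s n) (h2 : Od g s m) :
    Od (fun z => f z * g z) s (n + m) := by
  refine ⟨h1.1.mul h2.1, ?_⟩
  have := analyticOrderAt_mul h1.1 h2.1
  rw [h1.2, h2.2] at this
  rw [Nat.cast_add]
  exact this

lemma Od.one (s : ℂ) : Od (fun _ => 1) s 0 := by
  refine ⟨analyticAt_const, ?_⟩
  rw [Nat.cast_zero, analyticOrderAt_eq_zero]
  exact Or.inr one_ne_zero

lemma Od.pow {f : ℂ → ℂ} {s : ℂ} {n : ℕ} (h1 : Od f s n) (k : ℕ) :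
    Od (fun z => f z ^ k) s (k * n) := by
  induction k with
  | zero => simpa using Od.one s
  | succ k ih =>
    have h2 := ih.mul h1
    have e1 : (fun z => f z ^ (k + 1)) = fun z => f z ^ k * f z := by
      funext z
      rw [pow_succ]
    have e2 : (k + 1) * n = k * n + n := by ring
    rw [e1, e2]
    exact h2

lemma Od.prod {ι : Type*} (S : Finset ι) {f : ι → ℂ → ℂ} {s : ℂ} {n : ι → ℕ}
    (h : ∀ i ∈ S, Od (f i) s (n i)) : Od (fun z => ∏ i ∈ S, f i z) s (∑ i ∈ S, n i) := by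
  classical
  induction S using Finset.induction_on with
  | empty => simpa using Od.one s
  | insert a S ha ih =>
    have h1 := (h a (Finset.mem_insert_self a S)).mul
      (ih fun i hi => h i (Finset.mem_insert_of_mem hi))
    have e1 : (fun z => ∏ i ∈ insert a S, f i z) = fun z => f a z * ∏ i ∈ S, f i z := by
      funext z
      rw [Finset.prod_insert ha]
    rw [e1, Finset.sum_insert ha]
    exact h1

lemma Od.congr {f g : ℂ → ℂ} {s : ℂ} {n : ℕ} (h1 : Od f s n) (h2 : f =ᶠ[𝓝 s] g) : Od g s n :=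
  ⟨h1.1.congr h2, by rw [← analyticOrderAt_congr h2]; exact h1.2⟩

lemma Od.zero {f : ℂ → ℂ} {s : ℂ} (h1 : AnalyticAt ℂ f s) (h2 : f s ≠ 0) : Od f s 0 := by
  refine ⟨h1, ?_⟩
  rw [Nat.cast_zero, analyticOrderAt_eq_zero]
  exact Or.inr h2

lemma analyticAt_refl {f : ℂ → ℂ} {s : ℂ} (h : AnalyticAt ℂ f (1 - (starRingEnd ℂ) s)) :
    AnalyticAt ℂ (fun w => (starRingEnd ℂ) (f (1 - (starRingEnd ℂ) w))) s := by
  rw [Complex.analyticAt_iff_eventually_differentiableAt] at h ⊢
  have hc : Tendsto (fun w : ℂ => 1 - (starRingEnd ℂ) w) (𝓝 s) (𝓝 (1 - (starRingEnd ℂ) s)) := by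
    have : Continuous fun z : ℂ => 1 - (starRingEnd ℂ) z :=
      continuous_const.sub Complex.continuous_conj
    exact this.continuousAt
  filter_upwards [hc.eventually h] with w hw
  have h1 : DifferentiableAt ℂ (fun w => f (1 - w)) ((starRingEnd ℂ) w) := by
    have h3 : DifferentiableAt ℂ (fun w : ℂ => 1 - w) ((starRingEnd ℂ) w) := by fun_prop
    exact hw.comp _ h3
  have h4 := h1.conj_conj
  rw [Complex.conj_conj] at h4
  exact h4

lemma Od.refl {f : ℂ → ℂ} {s : ℂ} {n : ℕ} (h : Od f (1 - (starRingEnd ℂ) s) n) :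
    Od (fun w => (starRingEnd ℂ) (f (1 - (starRingEnd ℂ) w))) s n := by
  refine ⟨analyticAt_refl h.1, ?_⟩
  rw [(analyticAt_refl h.1).analyticOrderAt_eq_natCast]
  obtain ⟨g, hg, hg0, hfg⟩ := (h.1.analyticOrderAt_eq_natCast).1 h.2
  refine ⟨fun w => (-1) ^ n * (starRingEnd ℂ) (g (1 - (starRingEnd ℂ) w)),
    analyticAt_const.mul (analyticAt_refl hg), ?_, ?_⟩
  · refine mul_ne_zero (pow_ne_zero _ (by norm_num)) ?_
    simpa using hg0
  · have hc : Tendsto (fun w : ℂ => 1 - (starRingEnd ℂ) w) (𝓝 s)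
        (𝓝 (1 - (starRingEnd ℂ) s)) := by
      have : Continuous fun z : ℂ => 1 - (starRingEnd ℂ) z :=
        continuous_const.sub Complex.continuous_conj
      exact this.continuousAt
    filter_upwards [hc.eventually hfg] with w hw
    rw [hw, smul_eq_mul, smul_eq_mul, map_mul, map_pow]
    have e : (starRingEnd ℂ) (1 - (starRingEnd ℂ) w - (1 - (starRingEnd ℂ) s)) = -1 * (w - s) := by
      simp only [map_sub, map_one, Complex.conj_conj]
      ring
    rw [e, mul_pow]
    ring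

/-- the order exists on the upper half plane -/
lemma Od.exists {f : ℂ → ℂ} (hf : ∀ s : ℂ, 0 < s.im → DifferentiableAt ℂ f s) {p : ℂ}
    (hp : 0 < p.im) (hfp : f p ≠ 0) {z : ℂ} (hz : 0 < z.im) : ∃ n : ℕ, Od f z n := by
  have hd : DifferentiableOn ℂ f {s : ℂ | 0 < s.im} := fun s hs => (hf s hs).differentiableWithinAt
  have han := hd.analyticOnNhd isOpen_U
  have h2 : analyticOrderAt f z ≠ ⊤ := by
    intro h
    rw [analyticOrderAt_eq_top] at h
    have h1 := han.eqOn_zero_of_preconnected_of_eventuallyEq_zero preconn_U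
      (show z ∈ {s : ℂ | 0 < s.im} from hz) h
    exact hfp (h1 hp)
  exact ⟨analyticOrderNatAt f z, han z hz, (Nat.cast_analyticOrderNatAt h2).symm⟩

open scoped Classical in
/-- the order of one Euler factor -/
lemma Od.fac {p : ℕ} (hp : p.Prime) (h s : ℂ) :
    Od (fun z => 1 - h * (p : ℂ) ^ (-z)) s (if h * (p : ℂ) ^ (-s) = 1 then 1 else 0) := by
  have hp0 : (p : ℂ) ≠ 0 := by exact_mod_cast hp.ne_zero
  have hder : ∀ z : ℂ, HasDerivAt (fun z : ℂ => 1 - h * (p : ℂ) ^ (-z))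
      (h * (p : ℂ) ^ (-z) * Complex.log p) z := by
    intro z
    have h1 : HasDerivAt (fun z : ℂ => (p : ℂ) ^ (-z)) ((p : ℂ) ^ (-z) * Complex.log p * -1) z :=
      (hasDerivAt_neg z).const_cpow (Or.inl hp0)
    refine ((h1.const_mul h).const_sub 1).congr_deriv ?_
    ring
  have han : AnalyticAt ℂ (fun z => 1 - h * (p : ℂ) ^ (-z)) s := by
    have : Differentiable ℂ (fun z : ℂ => 1 - h * (p : ℂ) ^ (-z)) := fun z => (hder z).differentiableAt
    exact this.analyticAt s
  split_ifs with hh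
  · refine ⟨han, ?_⟩
    rw [Nat.cast_one]
    refine han.analyticOrderAt_eq_one_of_zero_deriv_ne_zero ?_ ?_
    · rw [hh, sub_self]
    · rw [(hder s).deriv, hh, one_mul, ← Complex.natCast_log]
      have : Real.log p ≠ 0 := (Real.log_pos (by exact_mod_cast hp.one_lt)).ne'
      exact_mod_cast this
  · refine Od.zero han fun h0 => hh ?_
    linear_combination -h0

/-- Euler factors do not vanish to the right -/
lemma fac_ne {p : ℕ} (hp : p.Prime) {h : ℂ} (hh : ‖h‖ ≤ 1) {s : ℂ} (hs : 0 < s.re) :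
    1 - h * (p : ℂ) ^ (-s) ≠ 0 := by
  intro h0
  have h1 : h * (p : ℂ) ^ (-s) = 1 := by linear_combination -h0
  have h2 : ‖h * (p : ℂ) ^ (-s)‖ < 1 := by
    rw [norm_mul, Complex.norm_natCast_cpow_of_pos hp.pos, Complex.neg_re]
    have h3 : (p : ℝ) ^ (-s.re) < 1 :=
      Real.rpow_lt_one_of_one_lt_of_neg (by exact_mod_cast hp.one_lt) (by linarith)
    have h4 : 0 ≤ (p : ℝ) ^ (-s.re) := by positivity
    nlinarith [norm_nonneg h]
  rw [h1, norm_one] at h2
  exact lt_irrefl _ h2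

open scoped Classical in
/-- (FE1) the symmetry of the orders. -/
theorem pf_FE1 : T_FE1 := by
  intro ι _ L c B hL hB hprod
  -- the Euler factors
  obtain ⟨E, hE⟩ : ∃ E : ι → ℂ → ℂ, E = fun i s => ∏ p ∈ B, ∏ j,
    (1 - (L i).h j p * (p : ℂ) ^ (-s)) := ⟨_, rfl⟩
  obtain ⟨a, ha⟩ : ∃ a : ι → ℂ → ℕ, a = fun i s => ∑ p ∈ B, ∑ j,
    if (L i).h j p * (p : ℂ) ^ (-s) = 1 then 1 else 0 := ⟨_, rfl⟩
  have hEO : ∀ i s, Od (E i) s (a i s) := by
    intro i s
    rw [hE, ha]
    exact Od.prod B fun p hp => Od.prod Finset.univ fun j _ => Od.fac (hB p hp) _ s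
  have hoe : ∀ s, oe L c B s = ∑ i, c i * (a i s : ℤ) := by
    intro s
    unfold oe
    rw [Finset.sum_comm]
    refine Finset.sum_congr rfl fun i _ => ?_
    rw [← Finset.mul_sum, ha]
    congr 1
    push_cast
    rfl
  have hEne : ∀ i (s : ℂ), 1 < s.re → E i s ≠ 0 := by
    intro i s hs
    rw [hE]
    exact Finset.prod_ne_zero_iff.2 fun p hp => Finset.prod_ne_zero_iff.2 fun j _ =>
      fac_ne (hB p hp) ((L i).h_le j p) (by linarith)
  have hne : ∀ i (s : ℂ), 1 < s.re → 0 < s.im → (L i).num s ≠ 0 := fun i s h1 h2 =>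
    Pool.Agent.H62.DL.num_ne (L i) s h1 h2
  have hcr := cross (fun i s => (L i).num s * E i s) c
    (fun i s hs => ((L i).diff s hs).1.mul (hEO i s).1.differentiableAt)
    (fun i s h1 h2 => mul_ne_zero (hne i s h1 h2) (hEne i s h1)) (by
      intro s h1 h2
      have e1 : ∏ i, ((L i).num s * E i s) ^ c i = (∏ i, (L i).num s ^ c i) *
          ∏ i, E i s ^ c i := by
        rw [← Finset.prod_mul_distrib]
        exact Finset.prod_congr rfl fun i _ => mul_zpow _ _ _
      rw [e1, hprod s h1 h2, Finset.prod_comm, ← Finset.prod_mul_distrib]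
      refine Finset.prod_eq_one fun i _ => ?_
      have e2 : ∏ p ∈ B, (∏ j, (1 - (L i).h j p * (p : ℂ) ^ (-s))) ^ (-(c i)) =
          E i s ^ (-(c i)) := by
        rw [hE]
        exact Finset.prod_zpow _ _ _
      rw [e2, ← zpow_add₀ (hEne i s h1), neg_add_cancel, zpow_zero])
  -- the orders of the numerators
  have hpt : 0 < (2 + I : ℂ).im := by simp
  have hpt2 : 1 < (2 + I : ℂ).re := by simp
  have hex : ∀ i (s : ℂ), 0 < s.im → ∃ n : ℕ, Od (L i).num s n := fun i s hs =>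
    Od.exists (fun s hs => ((L i).diff s hs).1) hpt (hne i _ hpt2 hpt) hs
  have hsum : ∀ s : ℂ, 0 < s.im → ∀ b : ι → ℕ, (∀ i, Od (L i).num s (b i)) →
      ∑ i, c i * ((b i : ℤ) + (a i s : ℤ)) = 0 := by
    intro s hs b hb
    have h1 : ∀ e : ι → ℕ, Od (fun z => ∏ i, ((L i).num z * E i z) ^ e i) s
        (∑ i, e i * (b i + a i s)) := fun e =>
      Od.prod Finset.univ fun i _ => ((hb i).mul (hEO i s)).pow (e i)
    have h2 : (fun z => ∏ i, ((L i).num z * E i z) ^ (c i).toNat) =ᶠ[𝓝 s]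
        fun z => ∏ i, ((L i).num z * E i z) ^ (-(c i)).toNat := by
      filter_upwards [isOpen_U.mem_nhds hs] with z hz
      exact hcr z hz
    have h3 := ((h1 fun i => (c i).toNat).congr h2).uniq (h1 fun i => (-(c i)).toNat)
    have h4 : (∑ i, ((c i).toNat : ℤ) * ((b i : ℤ) + (a i s : ℤ))) =
        ∑ i, ((-(c i)).toNat : ℤ) * ((b i : ℤ) + (a i s : ℤ)) := by
      exact_mod_cast h3
    rw [← sub_eq_zero, ← Finset.sum_sub_distrib] at h4
    rw [← h4]
    refine Finset.sum_congr rfl fun i _ => ?_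
    rw [← sub_mul, Int.toNat_sub_toNat_neg]
  intro s hs
  have hs' : 0 < (1 - (starRingEnd ℂ) s).im := by simpa using hs
  choose b hb using fun i => hex i _ hs'
  -- the functional equation
  have hb' : ∀ i, Od (L i).num s (b i) := by
    intro i
    obtain ⟨n, hn⟩ := hex i s hs
    have hya : AnalyticAt ℂ (L i).y s := by
      rw [Complex.analyticAt_iff_eventually_differentiableAt]
      filter_upwards [isOpen_U.mem_nhds hs] with z hz
      exact (Pool.Agent.H92.DL.yn (L i) z hz).1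
    have h1 := hn.mul (Od.zero hya (Pool.Agent.H92.DL.yn (L i) s hs).2)
    have h2 : (fun z => (L i).num z * (L i).y z) =ᶠ[𝓝 s]
        fun z => (starRingEnd ℂ) ((L i).num (1 - (starRingEnd ℂ) z)) := by
      filter_upwards [isOpen_U.mem_nhds hs] with z hz
      have h3 := (L i).fe z hz
      rw [hL.1 i] at h3
      simpa [DL.LF.y] using h3
    have h3 := (h1.congr h2).uniq (hb i).refl
    rw [add_zero] at h3
    rw [← h3]
    exact hn
  have k1 := hsum s hs b hb'
  have k2 := hsum _ hs' b hb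
  rw [hoe, hoe]
  simp only [mul_add, Finset.sum_add_distrib] at k1 k2
  linarith

end Pool.Agent.H53.RC
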