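import Pool.Agent.H28.RC.Targets2
import Pool.Agent.H92.DL.YN
import Pool.Agent.H62.DL.EU

/-!
# (FE2) the Gamma factors of a trivial quotient
-/

set_option autoImplicit false

open NumberField NumberField.InfinitePlace Complex

namespace Pool.Agent.H53.RC

open Pool.Agent.H28.RC Pool.Agent.H25.HK Pool.Agent.H25

lemma zpow_split {x : ℂ} (hx : x ≠ 0) (a : ℤ) :
    x ^ a * x ^ (-a).toNat = x ^ a.toNat := by
  rcases le_total 0 a with h | h
  · rw [Int.toNat_of_nonpos (by omega : -a ≤ 0), pow_zero, mul_one, ← zpow_natCast,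
      Int.toNat_of_nonneg h]
  · rw [Int.toNat_of_nonpos h, pow_zero, ← zpow_natCast, Int.toNat_of_nonneg (by omega),
      ← zpow_add₀ hx, add_neg_cancel, zpow_zero]

lemma isOpen_U : IsOpen {s : ℂ | 0 < s.im} := isOpen_lt continuous_const Complex.continuous_im

lemma preconn_U : IsPreconnected {s : ℂ | 0 < s.im} := (convex_halfSpace_im_gt 0).isPreconnected

/-- the cross-multiplied identity on the upper half plane -/
lemma cross {ι : Type} [Fintype ι] (P : ι → ℂ → ℂ) (c : ι → ℤ)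
    (hd : ∀ i s, 0 < s.im → DifferentiableAt ℂ (P i) s)
    (hne : ∀ i (s : ℂ), 1 < s.re → 0 < s.im → P i s ≠ 0)
    (h : ∀ s : ℂ, 1 < s.re → 0 < s.im → ∏ i, P i s ^ c i = 1) :
    ∀ s : ℂ, 0 < s.im → ∏ i, P i s ^ (c i).toNat = ∏ i, P i s ^ (-(c i)).toNat := by
  have hda : ∀ e : ι → ℕ, AnalyticOnNhd ℂ (fun s => ∏ i, P i s ^ e i) {s : ℂ | 0 < s.im} := by
    intro e
    refine DifferentiableOn.analyticOnNhd (fun s hs => ?_) isOpen_U
    refine DifferentiableAt.differentiableWithinAt ?_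
    exact DifferentiableAt.fun_finsetProd fun i _ => (hd i s hs).pow _
  have hV : IsOpen {s : ℂ | 1 < s.re ∧ 0 < s.im} :=
    (isOpen_lt continuous_const Complex.continuous_re).inter isOpen_U
  have hp : (2 + I : ℂ) ∈ {s : ℂ | 1 < s.re ∧ 0 < s.im} := by simp
  have hpU : (2 + I : ℂ) ∈ {s : ℂ | 0 < s.im} := by simp
  have hev : (fun s => ∏ i, P i s ^ (c i).toNat) =ᶠ[nhds (2 + I : ℂ)]
      fun s => ∏ i, P i s ^ (-(c i)).toNat := by
    filter_upwards [hV.mem_nhds hp] with s hs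
    have h1 := h s hs.1 hs.2
    calc ∏ i, P i s ^ (c i).toNat = ∏ i, (P i s ^ c i * P i s ^ (-(c i)).toNat) :=
          Finset.prod_congr rfl fun i _ => (zpow_split (hne i s hs.1 hs.2) (c i)).symm
      _ = (∏ i, P i s ^ c i) * ∏ i, P i s ^ (-(c i)).toNat := Finset.prod_mul_distrib
      _ = _ := by rw [h1, one_mul]
  intro s hs
  exact (hda _).eqOn_of_preconnected_of_eventuallyEq (hda _) preconn_U hpU hev hs

/-- the real part of the logarithm of the inverse factor -/
lemma log_y (L : DL.LF) {s : ℂ} (hs : 0 < s.im) :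
    Real.log ‖L.y s‖ = (s.re - 1 / 2) * Real.log L.A +
      ((cκ L 0 : ℤ) + (cκ L 1 : ℤ) : ℝ) * Real.log ‖Gammaℂ s‖ +
      (cκ L 0 : ℤ) * Real.log ‖Complex.cos (Real.pi * s / 2)‖ +
      (cκ L 1 : ℤ) * Real.log ‖Complex.sin (Real.pi * s / 2)‖ := by
  classical
  have hG : ‖Gammaℂ s‖ ≠ 0 := norm_ne_zero_iff.2 (Pool.Agent.H92.DL.gammaC_ne hs)
  have hc : ∀ κ : ℝ, ‖Complex.cos (Real.pi * (s - κ) / 2)‖ ≠ 0 := fun κ =>
    norm_ne_zero_iff.2 (Pool.Agent.H92.DL.cos_ne κ hs)
  have e1 : ∀ j, Real.log ‖Complex.cos (Real.pi * (s - L.κ j) / 2)‖ =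
      (if L.κ j = 0 then Real.log ‖Complex.cos (Real.pi * s / 2)‖ else 0) +
      (if L.κ j = 1 then Real.log ‖Complex.sin (Real.pi * s / 2)‖ else 0) := by
    intro j
    rcases L.κ_mem j with h | h
    · rw [h, if_pos rfl, if_neg zero_ne_one, add_zero]
      congr 3
      push_cast
      ring
    · rw [h, if_neg one_ne_zero, if_pos rfl, zero_add]
      have : Complex.cos (Real.pi * (s - (1 : ℝ)) / 2) = Complex.sin (Real.pi * s / 2) := by
        rw [← Complex.cos_sub_pi_div_two]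
        congr 1
        push_cast
        ring
      rw [this]
  have e2 : ∀ j, (1 : ℝ) = (if L.κ j = 0 then 1 else 0) + (if L.κ j = 1 then 1 else 0) := by
    intro j
    rcases L.κ_mem j with h | h
    · rw [h, if_pos rfl, if_neg zero_ne_one, add_zero]
    · rw [h, if_neg one_ne_zero, if_pos rfl, zero_add]
  have e3 : ∀ x b : ℝ, ∑ j, (if L.κ j = x then b else 0) = (cκ L x : ℤ) * b := by
    intro x b
    rw [← Finset.sum_filter, Finset.sum_const, nsmul_eq_mul]
    unfold cκ
    rw [Nat.card_eq_fintype_card, Fintype.card_subtype]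
    push_cast
    rfl
  have e4 : (L.n : ℝ) = (cκ L 0 : ℤ) + (cκ L 1 : ℤ) := by
    have h1 : ∑ _j : Fin L.n, (1 : ℝ) = L.n := by simp
    rw [← h1, Finset.sum_congr rfl fun j _ => e2 j, Finset.sum_add_distrib, e3, e3, mul_one,
      mul_one]
  unfold DL.LF.y
  rw [norm_mul, norm_mul, L.norm_ε, one_mul, norm_prod, Real.log_mul (by
    rw [norm_ne_zero_iff]; exact Complex.exp_ne_zero _) (Finset.prod_ne_zero_iff.2 fun j _ => by
      rw [norm_mul]; exact mul_ne_zero hG (hc _)), Complex.norm_exp, Real.log_exp,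
    Real.log_prod fun j _ => by rw [norm_mul]; exact mul_ne_zero hG (hc _)]
  have e5 : ∀ j, Real.log ‖Gammaℂ s * Complex.cos (Real.pi * (s - L.κ j) / 2)‖ =
      Real.log ‖Gammaℂ s‖ + Real.log ‖Complex.cos (Real.pi * (s - L.κ j) / 2)‖ := fun j => by
    rw [norm_mul, Real.log_mul hG (hc _)]
  rw [Finset.sum_congr rfl fun j _ => e5 j, Finset.sum_add_distrib, Finset.sum_const,
    Finset.card_univ, Fintype.card_fin, nsmul_eq_mul, e4, Finset.sum_congr rfl fun j _ => e1 j,
    Finset.sum_add_distrib, e3, e3]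
  have e6 : ((s - 1 / 2) * (Real.log L.A : ℝ)).re = (s.re - 1 / 2) * Real.log L.A := by
    rw [Complex.mul_re, Complex.ofReal_re, Complex.ofReal_im, mul_zero, sub_zero,
      Complex.sub_re]
    norm_num
  rw [e6]
  ring

/-- (FE2) the Gamma factors. -/
theorem pf_FE2 : T_FE2 := by
  classical
  intro ι _ L c hL h
  have hcr := cross (fun i => (L i).num) c (fun i s hs => ((L i).diff s hs).1)
    (fun i s h1 h2 => Pool.Agent.H62.DL.num_ne (L i) s h1 h2) h
  -- the product of the inverse factors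
  have hy : ∀ s : ℂ, 1 < s.re → 0 < s.im → ∑ i, (c i : ℝ) * Real.log ‖(L i).y s‖ = 0 := by
    intro s hs hs'
    have hfe : ∀ i, (L i).num s * (L i).y s =
        (starRingEnd ℂ) ((L i).num (1 - (starRingEnd ℂ) s)) := by
      intro i
      have h1 := (L i).fe s hs'
      rw [hL.1 i] at h1
      simpa [DL.LF.y] using h1
    have hr : 0 < (1 - (starRingEnd ℂ) s).im := by simpa using hs'
    have hn : ∀ i, (L i).num s ≠ 0 := fun i => Pool.Agent.H62.DL.num_ne (L i) s hs hs'
    have hyn : ∀ i, (L i).y s ≠ 0 := fun i => (Pool.Agent.H92.DL.yn (L i) s hs').2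
    have k1 := hcr s hs'
    have k2 := congrArg (starRingEnd ℂ) (hcr _ hr)
    simp only [map_prod, map_pow] at k2
    simp only [← hfe] at k2
    have k3 : ∀ e : ι → ℕ, ∏ i, ((L i).num s * (L i).y s) ^ e i =
        (∏ i, (L i).num s ^ e i) * ∏ i, (L i).y s ^ e i := by
      intro e
      rw [← Finset.prod_mul_distrib]
      exact Finset.prod_congr rfl fun i _ => mul_pow _ _ _
    rw [k3, k3, k1] at k2
    have k4 : ∏ i, (L i).num s ^ (-(c i)).toNat ≠ 0 :=
      Finset.prod_ne_zero_iff.2 fun i _ => pow_ne_zero _ (hn i)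
    have k5 := mul_left_cancel₀ k4 k2
    have k6 := congrArg (fun z : ℂ => Real.log ‖z‖) k5
    simp only [norm_prod, norm_pow] at k6
    rw [Real.log_prod fun i _ => pow_ne_zero _ (norm_ne_zero_iff.2 (hyn i)),
      Real.log_prod fun i _ => pow_ne_zero _ (norm_ne_zero_iff.2 (hyn i))] at k6
    simp only [Real.log_pow] at k6
    have k7 : ∀ i, (c i : ℝ) * Real.log ‖(L i).y s‖ =
        ((c i).toNat : ℝ) * Real.log ‖(L i).y s‖ -
          ((-(c i)).toNat : ℝ) * Real.log ‖(L i).y s‖ := by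
      intro i
      have k8 : (c i : ℝ) = ((c i).toNat : ℝ) - ((-(c i)).toNat : ℝ) := by
        have := Int.toNat_sub_toNat_neg (c i)
        exact_mod_cast this.symm
      rw [← sub_mul, ← k8]
    rw [Finset.sum_congr rfl fun i _ => k7 i, Finset.sum_sub_distrib, k6, sub_self]
  obtain ⟨ℓ, hℓ⟩ : ∃ ℓ : ℝ, ℓ = ∑ i, (c i : ℝ) * Real.log (L i).A := ⟨_, rfl⟩
  obtain ⟨X, hX⟩ : ∃ X : ℤ, X = ∑ i, c i * cκ (L i) 0 := ⟨_, rfl⟩
  obtain ⟨Y, hY⟩ : ∃ Y : ℤ, Y = ∑ i, c i * cκ (L i) 1 := ⟨_, rfl⟩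
  have hlin : ∀ s : ℂ, 1 < s.re → 0 < s.im → (s.re - 1 / 2) * ℓ +
      ((X : ℝ) + Y) * Real.log ‖Gammaℂ s‖ + X * Real.log ‖Complex.cos (Real.pi * s / 2)‖ +
      Y * Real.log ‖Complex.sin (Real.pi * s / 2)‖ = 0 := by
    intro s hs hs'
    rw [← hy s hs hs']
    simp only [log_y _ hs']
    rw [hℓ, hX, hY]
    push_cast
    simp only [mul_add, add_mul, Finset.mul_sum, Finset.sum_mul, Finset.sum_add_distrib]
    have a1 : ∑ i, (s.re - 1 / 2) * ((c i : ℝ) * Real.log (L i).A) =
        ∑ i, (c i : ℝ) * ((s.re - 1 / 2) * Real.log (L i).A) :=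
      Finset.sum_congr rfl fun i _ => by ring
    have a2 : ∀ (v : ι → ℝ) (w : ℝ), ∑ i, (c i : ℝ) * v i * w = ∑ i, (c i : ℝ) * (v i * w) :=
      fun v w => Finset.sum_congr rfl fun i _ => by ring
    rw [a1, a2, a2, a2, a2]
  -- the shift by two
  have hsh : ∀ s : ℂ, 1 < s.re → 0 < s.im →
      2 * ℓ + ((X : ℝ) + Y) * (Real.log ‖s * (s + 1)‖ - 2 * Real.log (2 * Real.pi)) = 0 := by
    intro s hs hs'
    have h1 := hlin s hs hs'
    have h2 := hlin (s + 2) (by simp; linarith) (by simpa using hs')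
    have hs0 : s ≠ 0 := by rintro rfl; simp at hs'
    have hs1 : s + 1 ≠ 0 := fun h0 => by
      have := congrArg Complex.im h0
      simp at this
      linarith
    have g1 : Gammaℂ (s + 2) = Gammaℂ s * (s * (s + 1)) / (2 * Real.pi) ^ 2 := by
      have e : s + 2 = s + 1 + 1 := by ring
      rw [e, Complex.Gammaℂ_add_one hs1, Complex.Gammaℂ_add_one hs0]
      have hpi : (Real.pi : ℂ) ≠ 0 := by exact_mod_cast Real.pi_ne_zero
      field_simp
    have g2 : Real.log ‖Gammaℂ (s + 2)‖ = Real.log ‖Gammaℂ s‖ +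
        (Real.log ‖s * (s + 1)‖ - 2 * Real.log (2 * Real.pi)) := by
      rw [g1, norm_div, norm_mul, Real.log_div, Real.log_mul, norm_pow, Real.log_pow]
      · have : ‖(2 * Real.pi : ℂ)‖ = 2 * Real.pi := by
          rw [norm_mul, Complex.norm_real, Complex.norm_ofNat, Real.norm_eq_abs,
            abs_of_pos Real.pi_pos]
        rw [this]
        push_cast
        ring
      · exact norm_ne_zero_iff.2 (Pool.Agent.H92.DL.gammaC_ne hs')
      · exact norm_ne_zero_iff.2 (mul_ne_zero hs0 hs1)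
      · exact mul_ne_zero (norm_ne_zero_iff.2 (Pool.Agent.H92.DL.gammaC_ne hs'))
          (norm_ne_zero_iff.2 (mul_ne_zero hs0 hs1))
      · rw [norm_ne_zero_iff]
        have hpi : (Real.pi : ℂ) ≠ 0 := by exact_mod_cast Real.pi_ne_zero
        exact pow_ne_zero _ (mul_ne_zero two_ne_zero hpi)
    have g3 : Complex.cos (Real.pi * (s + 2) / 2) = -Complex.cos (Real.pi * s / 2) := by
      rw [← Complex.cos_add_pi]
      congr 1
      ring
    have g4 : Complex.sin (Real.pi * (s + 2) / 2) = -Complex.sin (Real.pi * s / 2) := by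
      rw [← Complex.sin_add_pi]
      congr 1
      ring
    rw [g2, g3, g4, norm_neg, norm_neg] at h2
    have h3 : (s + 2).re = s.re + 2 := by simp
    rw [h3] at h2
    linarith
  -- the degree is zero
  have hN : (X : ℝ) + Y = 0 := by
    have h1 := hsh (2 + I) (by simp) (by simp)
    have h2 := hsh (3 + I) (by simp) (by simp)
    have h3 : ((X : ℝ) + Y) * (Real.log ‖((3 + I) * (3 + I + 1) : ℂ)‖ -
        Real.log ‖((2 + I) * (2 + I + 1) : ℂ)‖) = 0 := by linarith
    rcases mul_eq_zero.1 h3 with h4 | h4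
    · exact h4
    · exfalso
      have n1 : ‖((2 + I) * (2 + I + 1) : ℂ)‖ ^ 2 = 50 := by
        rw [← Complex.normSq_eq_norm_sq, Complex.normSq_apply]
        simp
        norm_num
      have n2 : ‖((3 + I) * (3 + I + 1) : ℂ)‖ ^ 2 = 170 := by
        rw [← Complex.normSq_eq_norm_sq, Complex.normSq_apply]
        simp
        norm_num
      have p1 : 0 < ‖((2 + I) * (2 + I + 1) : ℂ)‖ := by
        rcases (norm_nonneg ((2 + I) * (2 + I + 1) : ℂ)).eq_or_lt with h | h
        · rw [← h] at n1; norm_num at n1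
        · exact h
      have h5 : ‖((2 + I) * (2 + I + 1) : ℂ)‖ < ‖((3 + I) * (3 + I + 1) : ℂ)‖ := by
        refine lt_of_pow_lt_pow_left₀ 2 (norm_nonneg _) ?_
        rw [n1, n2]
        norm_num
      have h6 := Real.log_lt_log p1 h5
      linarith
  have hℓ0 : ℓ = 0 := by
    have h1 := hsh (2 + I) (by simp) (by simp)
    rw [hN] at h1
    linarith
  -- the two kinds of factors
  have hX0 : (X : ℝ) = 0 := by
    have h1 := hlin (2 + I) (by simp) (by simp)
    rw [hN, hℓ0] at h1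
    have hYX : (Y : ℝ) = -X := by linarith
    rw [hYX] at h1
    have c1 : ‖Complex.cos (Real.pi * (2 + I) / 2)‖ = Real.cosh (Real.pi / 2) := by
      have e : (Real.pi * (2 + I) / 2 : ℂ) = (Real.pi / 2 : ℝ) * I + Real.pi := by
        push_cast
        ring
      rw [e, Complex.cos_add_pi, norm_neg, Complex.cos_mul_I, ← Complex.ofReal_cosh,
        Complex.norm_real, Real.norm_eq_abs, abs_of_pos (Real.cosh_pos _)]
    have c2 : ‖Complex.sin (Real.pi * (2 + I) / 2)‖ = Real.sinh (Real.pi / 2) := by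
      have e : (Real.pi * (2 + I) / 2 : ℂ) = (Real.pi / 2 : ℝ) * I + Real.pi := by
        push_cast
        ring
      rw [e, Complex.sin_add_pi, norm_neg, Complex.sin_mul_I, norm_mul, Complex.norm_I, mul_one,
        ← Complex.ofReal_sinh, Complex.norm_real, Real.norm_eq_abs,
        abs_of_nonneg (Real.sinh_nonneg_iff.2 (by positivity))]
    rw [c1, c2] at h1
    have h2 : (X : ℝ) * (Real.log (Real.cosh (Real.pi / 2)) -
        Real.log (Real.sinh (Real.pi / 2))) = 0 := by linarith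
    rcases mul_eq_zero.1 h2 with h3 | h3
    · exact h3
    · exfalso
      have h4 := Real.log_lt_log (Real.sinh_pos_iff.2 (by positivity : 0 < Real.pi / 2))
        (Real.sinh_lt_cosh (Real.pi / 2))
      linarith
  have hY0 : (Y : ℝ) = 0 := by linarith
  refine ⟨?_, ?_⟩
  · rw [← hX]
    exact_mod_cast hX0
  · rw [← hY]
    exact_mod_cast hY0

end Pool.Agent.H53.RC
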