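import Pool.Agent.H28.RC.Targets2

/-!
# (FEP) a quotient of L-functions with almost all Euler factors trivial is trivial
-/

set_option autoImplicit false

open NumberField NumberField.InfinitePlace Complex

namespace Pool.Agent.H53.RC

open Pool.Agent.H28.RC Pool.Agent.H25.HK Pool.Agent.H25

/-- (FEP) -/
theorem pf_FEP (h0 : T_FE0) (h1 : T_FE1) (h3 : T_FE3) (h2 : T_FE2) : T_FEP := by
  classical
  intro ι _ L c B hL hB
  obtain ⟨B', hB'⟩ : ∃ B' : Finset ℕ, B' = B.filter Nat.Prime := ⟨_, rfl⟩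
  have hpr : ∀ p ∈ B', p.Prime := fun p hp => by
    rw [hB'] at hp
    exact (Finset.mem_filter.1 hp).2
  have hout : ∀ p k : ℕ, p.Prime → p ∉ B' → 1 ≤ k → ps L c p k = 0 := fun p k hp hpB hk => by
    refine hB p k hp (fun h => hpB ?_) hk
    rw [hB']
    exact Finset.mem_filter.2 ⟨h, hp⟩
  have hall : ∀ p k : ℕ, p.Prime → 1 ≤ k → ps L c p k = 0 := by
    intro p k hp hk
    by_cases hpB : p ∈ B'
    · exact h3 ι L c B' hL hpr (h1 ι L c B' hL hpr (h0 ι L c B' hL hpr hout)) p hpB k hk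
    · exact hout p k hp hpB hk
  refine ⟨hall, h2 ι L c hL fun s hs hs' => ?_⟩
  have h4 := h0 ι L c ∅ hL (by simp) (fun p k hp _ hk => hall p k hp hk) s hs hs'
  simpa using h4

end Pool.Agent.H53.RC
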